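import Pool.Agent.H717.PM.Final2

/-!
# Recognition of pairwise compatibility graphs is NP-complete

The reduction is from betweenness.

* A non-adjacent pair `u, v` is forced to be at distance less than `dmin` by four new vertices
  `a, b, c, d`, all adjacent to `u` and `v`, with the edges `ab`, `cd` and no other edges.
* A non-adjacent pair `p, q` is forced to be at distance greater than `dmax` by two new vertices
  `x`, `y` with the edges `xp`, `yq`, and by forcing the pairs `xq`, `xy`, `yp` to be at distance
  less than `dmin`.

All other pairs of vertices are non-edges; they may be short or long.  In the reduction every
element of a betweenness instance gives three base vertices and every triple gives two; the base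
vertices of a solvable instance become the leaves of a caterpillar (intervals of a line with
distinct end points), and the additional vertices are attached at generic places, so that their
distances to all other leaves avoid the narrow window `[dmin, dmax]`.

Membership in `NP`: by Buneman's theorem a tree may be replaced by a matrix of distances which
satisfies the four-point condition; the conditions on such a matrix are linear, and their
solvability by small natural numbers follows from Cramer's rule.
-/

set_option autoImplicit false

namespace Pool.Agent.Results.MP_9390ab_lc.PCGRecognitionNPHard

open Pool.Agent.NPC Pool.Agent.H717.PR

/-- **Recognition of pairwise compatibility graphs is NP-complete**: it is in `NP` and `NP`-hard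
under polynomial-time many-one reductions; so if it can be done in polynomial time, then every
language in `NP` is in `P`. -/
theorem result : InNPP PCGRecognition ∧ NPHardP PCGRecognition ∧
    (InPP PCGRecognition → ∀ L : Set (List Bool), InNP L → InP L) :=
  ⟨Pool.Agent.H717.PM.Final.np_pcg, Final.hardI_pcg.toNPHardP,
    fun h _ hL => InP.of_reduces (Final.hardI_pcg.toNPHardP _ hL) h⟩

end Pool.Agent.Results.MP_9390ab_lc.PCGRecognitionNPHard
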